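import Mathlib
import Pool.Agent.Q277.PInt
import Pool.Agent.Q277.CatalanSums

/-!
# Sums of products of Catalan numbers and second-order Catalan numbers modulo `p^2` and `p`
-/

open Finset

namespace Pool.Agent.Results.MP_77f5f4_nt.SecondOrderCatalan

open Q277.PInt Q277.CatalanSums

/-- The Catalan number `C_k = C(2k,k)/(k+1)`. -/
def cat (k : ℕ) : ℚ := ((2 * k).choose k : ℚ) / (k + 1)

/-- The second-order Catalan number of the first kind, `C(3k,k)/(2k+1)`. -/
def cat2 (k : ℕ) : ℚ := ((3 * k).choose k : ℚ) / (2 * k + 1)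

/-- The second-order Catalan number of the second kind, `2 C(3k,k)/(k+1)`. -/
def cat2bar (k : ℕ) : ℚ := 2 / (k + 1) * ((3 * k).choose k : ℚ)

/-- For rational numbers `x`, `y` and `m ≥ 1`: `x ≡ y` modulo `p^m`, that is, the numerator of
`x - y` in lowest terms is divisible by `p^m`. -/
def Congr (p m : ℕ) (x y : ℚ) : Prop := (p : ℤ) ^ m ∣ (x - y).num

theorem u_eq (k : ℕ) : u (-1 / 3) k = ((2 * k).choose k : ℚ) * ((3 * k).choose k : ℚ) / 27 ^ k := by
  have key : ∀ k : ℕ, u (-1 / 3) k * (27 ^ k * ((k.factorial : ℕ) : ℚ) ^ 3) =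
      (((3 * k).factorial : ℕ) : ℚ) := by
    intro k
    induction k with
    | zero => simp [u]
    | succ k ih =>
      have h1 : ((k : ℚ) + 1) ≠ 0 := by positivity
      have e : 3 * (k + 1) = 3 * k + 1 + 1 + 1 := by ring
      rw [e, Nat.factorial_succ, Nat.factorial_succ, Nat.factorial_succ, Nat.factorial_succ, u]
      push_cast
      rw [← ih]
      field_simp
      ring
  have h2 : (((2 * k).choose k : ℕ) : ℚ) * ((3 * k).choose k : ℕ) * ((k.factorial : ℕ) : ℚ) ^ 3 =
      (((3 * k).factorial : ℕ) : ℚ) := by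
    have e1 := Nat.choose_mul_factorial_mul_factorial (by omega : k ≤ 2 * k)
    have e2 := Nat.choose_mul_factorial_mul_factorial (by omega : k ≤ 3 * k)
    rw [show 2 * k - k = k by omega] at e1
    rw [show 3 * k - k = 2 * k by omega, ← e1] at e2
    have e3 := congrArg (Nat.cast : ℕ → ℚ) e2
    push_cast at e3
    rw [← e3]; ring
  have h3 := key k
  rw [← h2] at h3
  have hf : ((k.factorial : ℕ) : ℚ) ^ 3 ≠ 0 := by positivity
  have h4 : u (-1 / 3) k * 27 ^ k = ((2 * k).choose k : ℚ) * ((3 * k).choose k : ℚ) := by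
    apply mul_right_cancel₀ hf
    rw [← h3]; ring
  rw [← h4]
  field_simp

theorem sum_one (n : ℕ) : ∑ k ∈ range n, u (-1 / 3) k / ((k : ℚ) + 1) =
    9 / 2 * n * u (-1 / 3) n := by
  induction n with
  | zero => simp
  | succ n ih =>
    have h1 : ((n : ℚ) + 1) ≠ 0 := by positivity
    rw [Finset.sum_range_succ, ih, u]
    push_cast
    field_simp
    ring

theorem sum_two (n : ℕ) : ∑ k ∈ range n, u (-1 / 3) k / ((k : ℚ) + 1) ^ 2 =
    -9 / 2 * (1 - u (-1 / 3) n - 9 / 2 * n * u (-1 / 3) n) := by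
  induction n with
  | zero => simp [u]
  | succ n ih =>
    have h1 : ((n : ℚ) + 1) ≠ 0 := by positivity
    rw [Finset.sum_range_succ, ih, u]
    push_cast
    field_simp
    ring

theorem u_p (p : ℕ) (hp : p.Prime) (hp3 : 3 < p) : Cg p 1 (u (-1 / 3) p) (2 / 9) := by
  have : Fact p.Prime := ⟨hp⟩
  have h1 : (2 * p).choose p ≡ 2 [MOD p] := by
    have h : (2 * p).choose p ≡ ((2 * p) % p).choose (p % p) * ((2 * p) / p).choose (p / p) [MOD p] :=
      Choose.choose_modEq_choose_mod_mul_choose_div_nat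
    rw [Nat.mul_mod_left, Nat.mod_self, Nat.mul_div_cancel _ hp.pos, Nat.div_self hp.pos] at h
    simpa using h
  have h2 : (3 * p).choose p ≡ 3 [MOD p] := by
    have h : (3 * p).choose p ≡ ((3 * p) % p).choose (p % p) * ((3 * p) / p).choose (p / p) [MOD p] :=
      Choose.choose_modEq_choose_mod_mul_choose_div_nat
    rw [Nat.mul_mod_left, Nat.mod_self, Nat.mul_div_cancel _ hp.pos, Nat.div_self hp.pos] at h
    simpa using h
  have h3 : (p : ℤ) ∣ 27 ^ p - 27 := by
    have := ZMod.pow_card (27 : ZMod p)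
    rw [← ZMod.intCast_zmod_eq_zero_iff_dvd]
    push_cast
    rw [this, sub_self]
  obtain ⟨a, ha⟩ := (Nat.modEq_iff_dvd.1 h1.symm)
  obtain ⟨b, hb⟩ := (Nat.modEq_iff_dvd.1 h2.symm)
  obtain ⟨c, hc⟩ := h3
  have hnd : ¬ p ∣ 9 * 27 ^ p := by
    intro h
    have h9 : 9 * 27 ^ p = 3 ^ (3 * p + 2) := by
      rw [pow_add, pow_mul]; norm_num; ring
    rw [h9] at h
    have := hp.dvd_of_dvd_pow h
    have := Nat.le_of_dvd (by norm_num) this
    omega
  have ha' := congrArg (Int.cast : ℤ → ℚ) ha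
  have hb' := congrArg (Int.cast : ℤ → ℚ) hb
  have hc' := congrArg (Int.cast : ℤ → ℚ) hc
  push_cast at ha' hb' hc'
  rw [u_eq]
  refine ⟨(((9 * (b * (2 + p * a) + 3 * a) - 2 * c : ℤ) : ℚ)) / ((9 * 27 ^ p : ℕ) : ℚ),
    PI.div_nat hp (PI.int hp _) hnd, ?_⟩
  have ea : (((2 * p).choose p : ℕ) : ℚ) = 2 + p * a := by linarith
  have eb : (((3 * p).choose p : ℕ) : ℚ) = 3 + p * b := by linarith
  have ec : (27 : ℚ) ^ p = 27 + p * c := by linarith
  have hne : (27 : ℚ) ^ p ≠ 0 := by positivity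
  rw [ea, eb]
  push_cast
  field_simp
  rw [ec]
  ring

theorem leg (p : ℕ) (hp : p.Prime) (hp3 : 3 < p) :
    ((legendreSym 3 (p : ℤ) : ℤ) : ℚ) = if p % 3 = 1 then 1 else -1 := by
  have h0 : p % 3 ≠ 0 := by
    intro h
    have h2 : 3 ∣ p := Nat.dvd_of_mod_eq_zero h
    have := (Nat.prime_dvd_prime_iff_eq Nat.prime_three hp).1 h2
    omega
  have h1 : p % 3 = 1 ∨ p % 3 = 2 := by omega
  rw [legendreSym.mod]
  rcases h1 with h | h
  · have h2 : ((p : ℤ) % ((3 : ℕ) : ℤ)) = 1 := by omega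
    rw [h2, if_pos h]
    have : legendreSym 3 1 = 1 := by norm_num
    rw [this]; norm_num
  · have h2 : ((p : ℤ) % ((3 : ℕ) : ℤ)) = 2 := by omega
    rw [h2, if_neg (by omega)]
    have : legendreSym 3 2 = -1 := by norm_num
    rw [this]; norm_num

/-- For every prime `p > 3`: `∑_{k<p} C_k C_k^{(2)} / 27^k ≡ 2 (p/3) - p` modulo `p^2` and
`∑_{k<p} C_k \bar C_k^{(2)} / 27^k ≡ -7` modulo `p`. -/
theorem result : ∀ p : ℕ, p.Prime → 3 < p →
    Congr p 2 (∑ k ∈ range p, cat k * cat2 k / 27 ^ k)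
      (2 * ((legendreSym 3 (p : ℤ) : ℤ) : ℚ) - p) ∧
    Congr p 1 (∑ k ∈ range p, cat k * cat2bar k / 27 ^ k) (-7) := by
  intro p hp hp3
  have hnd2 : ¬ p ∣ 2 := by
    intro h
    have := Nat.le_of_dvd (by norm_num) h
    omega
  have PI92 : PI p (9 / 2) := by
    have := PI.div_nat hp (PI.nat hp 9) hnd2
    push_cast at this
    exact this
  have hup := u_p p hp hp3
  constructor
  · apply Cg.num_dvd hp
    have e1 : ∑ k ∈ range p, cat k * cat2 k / 27 ^ k =
        2 * (∑ k ∈ range p, u (-1 / 3) k / (2 * (k : ℚ) + 1)) - 9 / 2 * p * u (-1 / 3) p := by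
      rw [← sum_one, Finset.mul_sum, ← Finset.sum_sub_distrib]
      refine Finset.sum_congr rfl fun k _ => ?_
      rw [u_eq]
      unfold cat cat2
      have h1 : ((k : ℚ) + 1) ≠ 0 := by positivity
      have h2 : (2 * (k : ℚ) + 1) ≠ 0 := by positivity
      field_simp
      ring
    rw [e1, leg p hp hp3]
    apply Cg.sub hp
    · exact Cg.mul_left hp (by simpa using PI.nat hp 2) (W_third hp (by omega) (by omega))
    · obtain ⟨c, hc, h⟩ := hup
      refine ⟨9 / 2 * c, PI.mul hp PI92 hc, ?_⟩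
      linear_combination (9 / 2 * (p : ℚ)) * h
  · apply Cg.num_dvd hp
    have e1 : ∑ k ∈ range p, cat k * cat2bar k / 27 ^ k =
        -9 * (1 - u (-1 / 3) p - 9 / 2 * p * u (-1 / 3) p) := by
      have : ∑ k ∈ range p, cat k * cat2bar k / 27 ^ k =
          2 * ∑ k ∈ range p, u (-1 / 3) k / ((k : ℚ) + 1) ^ 2 := by
        rw [Finset.mul_sum]
        refine Finset.sum_congr rfl fun k _ => ?_
        rw [u_eq]
        unfold cat cat2bar
        have h1 : ((k : ℚ) + 1) ≠ 0 := by positivity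
        field_simp
      rw [this, sum_two]; ring
    rw [e1]
    obtain ⟨c, hc, h⟩ := hup
    have hPIu : PI p (u (-1 / 3) p) := by
      have : u (-1 / 3) p = 2 / 9 + p * c := by linear_combination h
      rw [this]
      have h9 : ¬ p ∣ 9 := by
        intro h
        have h9 : (9 : ℕ) = 3 ^ 2 := by norm_num
        rw [h9] at h
        have := hp.dvd_of_dvd_pow h
        have := Nat.le_of_dvd (by norm_num) this
        omega
      have := PI.div_nat hp (PI.nat hp 2) h9
      push_cast at this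
      exact PI.add hp this (PI.mul hp (PI.nat hp p) hc)
    refine ⟨9 * c + 9 * (9 / 2) * u (-1 / 3) p, PI.add hp (PI.mul hp (by simpa using PI.nat hp 9) hc)
      (PI.mul hp (PI.mul hp (by simpa using PI.nat hp 9) PI92) hPIu), ?_⟩
    linear_combination 9 * h

end Pool.Agent.Results.MP_77f5f4_nt.SecondOrderCatalan
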